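import Mathlib

/-!
# MP_76a7f5_an : the case `n = 2`

`F_2` has exactly two global minimisers on the square `[-1,1]^2`, namely `(a,-a)` and `(-a,a)`
with one real number `a` strictly between `0` and `1`.
-/

open MeasureTheory intervalIntegral

namespace Pool.Agent.Results.MP_76a7f5_an.TwoNodes

/-- The function `g` of the problem. -/
noncomputable def g (x : ℝ) : ℝ := if x = 0 then 2 / 3 else x⁻¹ * Real.log ((3 + x) / (3 - x))

/-- The energy `F_n`. -/
noncomputable def F {n : ℕ} (x : Fin n → ℝ) : ℝ :=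
  (1 / (n : ℝ)) * ∑ i, ∑ j, 1 / (3 - x i * x j) - ∑ i, g (x i)

/-- Global minimiser of `F_n` on the cube `[-1,1]^n`. -/
def IsMinimiser {n : ℕ} (x : Fin n → ℝ) : Prop :=
  (∀ i, x i ∈ Set.Icc (-1 : ℝ) 1) ∧
    ∀ y : Fin n → ℝ, (∀ i, y i ∈ Set.Icc (-1 : ℝ) 1) → F x ≤ F y

/-- `h (x^2) = g x`. -/
noncomputable def h (u : ℝ) : ℝ := ∫ y in (0 : ℝ)..1, 6 / (9 - u * y ^ 2)

lemma den_pos {u y : ℝ} (hu0 : 0 ≤ u) (hu : u ≤ 1) (hy : y ∈ Set.Icc (0 : ℝ) 1) :
    8 ≤ 9 - u * y ^ 2 ∧ 9 - u * y ^ 2 ≤ 9 := by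
  obtain ⟨h0, h1⟩ := hy
  have hy2 : y ^ 2 ≤ 1 := by nlinarith
  have hy0 : 0 ≤ y ^ 2 := sq_nonneg y
  constructor
  · nlinarith [mul_le_mul hu hy2 hy0 (by norm_num : (0:ℝ) ≤ 1)]
  · nlinarith [mul_nonneg hu0 hy0]

lemma integ {u : ℝ} (hu0 : 0 ≤ u) (hu : u ≤ 1) :
    IntervalIntegrable (fun y : ℝ => 6 / (9 - u * y ^ 2)) volume 0 1 := by
  apply ContinuousOn.intervalIntegrable
  rw [Set.uIcc_of_le (by norm_num : (0:ℝ) ≤ 1)]
  apply ContinuousOn.div continuousOn_const (by fun_prop)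
  intro y hy
  have := (den_pos hu0 hu hy).1
  intro hc
  rw [hc] at this
  norm_num at this

lemma g_eq {x : ℝ} (hx : x ∈ Set.Icc (-1 : ℝ) 1) : g x = h (x ^ 2) := by
  unfold g h
  obtain ⟨hx1, hx2⟩ := hx
  split_ifs with h0
  · subst h0
    norm_num
  · have hsq : x ^ 2 ≤ 1 := by nlinarith
    have key : ∀ y ∈ Set.uIcc (0:ℝ) 1,
        HasDerivAt (fun y : ℝ => x⁻¹ * (Real.log (3 + x * y) - Real.log (3 - x * y)))
          (6 / (9 - x ^ 2 * y ^ 2)) y := by
      intro y hy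
      rw [Set.uIcc_of_le (by norm_num : (0:ℝ) ≤ 1)] at hy
      obtain ⟨y0, y1⟩ := hy
      have hxy : |x * y| ≤ 1 := by
        rw [abs_mul]
        have hax : |x| ≤ 1 := abs_le.mpr ⟨hx1, hx2⟩
        have hay : |y| ≤ 1 := abs_le.mpr ⟨by linarith, y1⟩
        exact mul_le_one₀ hax (abs_nonneg _) hay
      obtain ⟨q1, q2⟩ := abs_le.mp hxy
      have hp : (0:ℝ) < 3 + x * y := by linarith
      have hm : (0:ℝ) < 3 - x * y := by linarith
      have d1 : HasDerivAt (fun y : ℝ => 3 + x * y) x y := by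
        simpa using ((hasDerivAt_id y).const_mul x).const_add 3
      have d2 : HasDerivAt (fun y : ℝ => 3 - x * y) (-x) y := by
        simpa using ((hasDerivAt_id y).const_mul x).const_sub 3
      have d3 := ((d1.log hp.ne').sub (d2.log hm.ne')).const_mul x⁻¹
      have e0 : x⁻¹ * (x / (3 + x * y) - -x / (3 - x * y)) = 6 / (9 - x ^ 2 * y ^ 2) := by
        have e1 : (9 - x ^ 2 * y ^ 2) = (3 + x * y) * (3 - x * y) := by ring
        rw [e1]
        field_simp
        ring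
      rw [e0] at d3
      exact d3
    rw [integral_eq_sub_of_hasDerivAt key (integ (sq_nonneg x) hsq)]
    have hp : (0:ℝ) < 3 + x := by linarith
    have hm : (0:ℝ) < 3 - x := by linarith
    simp only [mul_one, mul_zero, add_zero, sub_zero, sub_self]
    rw [Real.log_div hp.ne' hm.ne']

lemma h_mid {u v : ℝ} (hu0 : 0 ≤ u) (hu : u ≤ 1) (hv0 : 0 ≤ v) (hv : v ≤ 1) :
    h u + h v - 2 * h ((u + v) / 2) ≤ 6 / 1024 * (u - v) ^ 2 := by
  have hw0 : 0 ≤ (u + v) / 2 := by linarith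
  have hw : (u + v) / 2 ≤ 1 := by linarith
  have e : h u + h v - 2 * h ((u + v) / 2) =
      ∫ y in (0:ℝ)..1, (6 / (9 - u * y ^ 2) + 6 / (9 - v * y ^ 2)
        - 2 * (6 / (9 - ((u + v) / 2) * y ^ 2))) := by
    unfold h
    rw [intervalIntegral.integral_sub ((integ hu0 hu).add (integ hv0 hv)) ((integ hw0 hw).const_mul 2),
      intervalIntegral.integral_add (integ hu0 hu) (integ hv0 hv), intervalIntegral.integral_const_mul]
  rw [e]
  have c : 6 / 1024 * (u - v) ^ 2 = ∫ _y in (0:ℝ)..1, 6 / 1024 * (u - v) ^ 2 := by simp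
  rw [c]
  apply intervalIntegral.integral_mono_on (by norm_num)
    (((integ hu0 hu).add (integ hv0 hv)).sub ((integ hw0 hw).const_mul 2))
    (by simp)
  intro y hy
  obtain ⟨a1, a2⟩ := den_pos hu0 hu hy
  obtain ⟨b1, b2⟩ := den_pos hv0 hv hy
  obtain ⟨y0, y1⟩ := hy
  set a := 9 - u * y ^ 2 with ha
  set b := 9 - v * y ^ 2 with hb
  have hm : 9 - (u + v) / 2 * y ^ 2 = (a + b) / 2 := by rw [ha, hb]; ring
  rw [hm]
  have e2 : 6 / a + 6 / b - 2 * (6 / ((a + b) / 2)) = 6 * (a - b) ^ 2 / (a * b * (a + b)) := by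
    have h1 : a ≠ 0 := by linarith
    have h2 : b ≠ 0 := by linarith
    have h3 : a + b ≠ 0 := by linarith
    field_simp
    ring
  rw [e2]
  have hab : (a - b) ^ 2 ≤ (u - v) ^ 2 := by
    have : a - b = -((u - v) * y ^ 2) := by rw [ha, hb]; ring
    rw [this, neg_sq, mul_pow]
    have hy4 : (y ^ 2) ^ 2 ≤ 1 := by
      have : y ^ 2 ≤ 1 := by nlinarith
      nlinarith [sq_nonneg y]
    nlinarith [sq_nonneg (u - v)]
  have hD : (1024:ℝ) ≤ a * b * (a + b) := by
    have h1 : (64:ℝ) ≤ a * b := by nlinarith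
    nlinarith
  rw [div_le_iff₀ (by linarith)]
  nlinarith [sq_nonneg (u - v), sq_nonneg (a - b), mul_nonneg (sq_nonneg (u - v)) (by linarith : 0 ≤ a * b * (a + b) - 1024)]

lemma h_lip {u v : ℝ} (hu0 : 0 ≤ u) (hu : u ≤ 1) (hv0 : 0 ≤ v) (hv : v ≤ 1) :
    h u - h v ≤ |u - v| := by
  have e : h u - h v = ∫ y in (0:ℝ)..1, (6 / (9 - u * y ^ 2) - 6 / (9 - v * y ^ 2)) := by
    unfold h
    rw [intervalIntegral.integral_sub (integ hu0 hu) (integ hv0 hv)]
  rw [e]
  have c : |u - v| = ∫ _y in (0:ℝ)..1, |u - v| := by simp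
  rw [c]
  apply intervalIntegral.integral_mono_on (by norm_num) ((integ hu0 hu).sub (integ hv0 hv)) (by simp)
  intro y hy
  obtain ⟨a1, a2⟩ := den_pos hu0 hu hy
  obtain ⟨b1, b2⟩ := den_pos hv0 hv hy
  obtain ⟨y0, y1⟩ := hy
  set a := 9 - u * y ^ 2 with ha
  set b := 9 - v * y ^ 2 with hb
  have e2 : 6 / a - 6 / b = 6 * (b - a) / (a * b) := by
    have h1 : a ≠ 0 := by linarith
    have h2 : b ≠ 0 := by linarith
    field_simp
  rw [e2, div_le_iff₀ (by nlinarith)]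
  have hy2 : y ^ 2 ≤ 1 := by nlinarith
  have h3 : b - a = (u - v) * y ^ 2 := by rw [ha, hb]; ring
  have h4 : b - a ≤ |u - v| := by
    rw [h3]
    calc (u - v) * y ^ 2 ≤ |u - v| * y ^ 2 := by
          apply mul_le_mul_of_nonneg_right (le_abs_self _) (sq_nonneg _)
      _ ≤ |u - v| * 1 := mul_le_mul_of_nonneg_left hy2 (abs_nonneg _)
      _ = |u - v| := mul_one _
  have h5 : (64:ℝ) ≤ a * b := by nlinarith
  nlinarith [abs_nonneg (u - v)]

/-- The energy on the antidiagonal, as a function of `w = a^2`. -/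
noncomputable def psi (w : ℝ) : ℝ := 1 / (3 - w) + 1 / (3 + w) - 2 * h w

lemma psi_cont : ContinuousOn psi (Set.Icc 0 1) := by
  have hc : ContinuousOn h (Set.Icc 0 1) := by
    have : LipschitzOnWith 1 h (Set.Icc 0 1) := by
      apply LipschitzOnWith.of_dist_le_mul
      intro u hu v hv
      rw [Real.dist_eq, Real.dist_eq, NNReal.coe_one, one_mul, abs_le]
      constructor
      · have := h_lip hv.1 hv.2 hu.1 hu.2
        rw [abs_sub_comm] at this
        linarith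
      · exact h_lip hu.1 hu.2 hv.1 hv.2
    exact this.continuousOn
  unfold psi
  apply ContinuousOn.sub
  · apply ContinuousOn.add
    · apply ContinuousOn.div continuousOn_const (by fun_prop)
      intro x hx
      have := hx.2
      have h' : (0:ℝ) < 3 - x := by linarith
      exact h'.ne'
    · apply ContinuousOn.div continuousOn_const (by fun_prop)
      intro x hx
      have := hx.1
      have h' : (0:ℝ) < 3 + x := by linarith
      exact h'.ne'
  · exact continuousOn_const.mul hc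

lemma psi_mid {u v : ℝ} (hu0 : 0 ≤ u) (hu : u ≤ 1) (hv0 : 0 ≤ v) (hv : v ≤ 1) (huv : u ≠ v) :
    2 * psi ((u + v) / 2) < psi u + psi v := by
  have hm := h_mid hu0 hu hv0 hv
  have hd : 0 < (u - v) ^ 2 := by
    have : u - v ≠ 0 := sub_ne_zero.mpr huv
    positivity
  have r : 2 * (1 / (3 - (u + v) / 2) + 1 / (3 + (u + v) / 2)) + (u - v) ^ 2 / 27 / 1
      ≤ 1 / (3 - u) + 1 / (3 + u) + (1 / (3 - v) + 1 / (3 + v)) := by
    have k : ∀ w : ℝ, 0 ≤ w → w ≤ 1 → 1 / (3 - w) + 1 / (3 + w) = 6 / (9 - w ^ 2) := by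
      intro w w0 w1
      have e1 : (9 - w ^ 2) = (3 - w) * (3 + w) := by ring
      have h1 : (3 - w) ≠ 0 := by linarith
      have h2 : (3 + w) ≠ 0 := by linarith
      rw [e1]
      field_simp
      ring
    rw [k _ (by linarith) (by linarith), k u hu0 hu, k v hv0 hv]
    set s := u ^ 2
    set t := v ^ 2
    have hs : s ≤ 1 := by nlinarith
    have ht : t ≤ 1 := by nlinarith
    have hs0 : 0 ≤ s := sq_nonneg u
    have ht0 : 0 ≤ t := sq_nonneg v
    have c1 : 2 * (6 / (9 - (s + t) / 2)) ≤ 6 / (9 - s) + 6 / (9 - t) := by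
      have h1 : 0 < 9 - s := by linarith
      have h2 : 0 < 9 - t := by linarith
      have h3 : 0 < 9 - (s + t) / 2 := by linarith
      rw [div_add_div _ _ h1.ne' h2.ne', mul_div_assoc', div_le_div_iff₀ h3 (mul_pos h1 h2)]
      nlinarith [sq_nonneg (s - t)]
    have c2 : 6 / (9 - ((u + v) / 2) ^ 2) + (u - v) ^ 2 / 54 ≤ 6 / (9 - (s + t) / 2) := by
      have em : ((u + v) / 2) ^ 2 = (s + t) / 2 - (u - v) ^ 2 / 4 := by
        simp only [s, t]; ring
      rw [em]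
      set m := (s + t) / 2 with hmdef
      set d := (u - v) ^ 2 / 4 with hddef
      have hd0 : 0 ≤ d := by positivity
      have hm1 : m ≤ 1 := by linarith
      have hm0 : 0 ≤ m := by linarith
      have hmd : 0 ≤ m - d := by rw [← em]; positivity
      have e3 : (u - v) ^ 2 / 54 = d * (4 / 54) := by rw [hddef]; ring
      rw [e3]
      have p1 : 0 < 9 - (m - d) := by linarith
      have p2 : 0 < 9 - m := by linarith
      have e4 : 6 / (9 - m) - 6 / (9 - (m - d)) = 6 * d / ((9 - m) * (9 - (m - d))) := by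
        field_simp
        ring
      have e5 : d * (4 / 54) ≤ 6 * d / ((9 - m) * (9 - (m - d))) := by
        rw [le_div_iff₀ (mul_pos p2 p1)]
        have : (9 - m) * (9 - (m - d)) ≤ 81 := by nlinarith
        nlinarith
      linarith
    have : 2 * (6 / (9 - ((u + v) / 2) ^ 2)) + (u - v) ^ 2 / 27 / 1
        ≤ 2 * (6 / (9 - (s + t) / 2)) := by linarith
    linarith
  unfold psi
  nlinarith

lemma psi_third : psi (1 / 3) ≤ 27 / 40 - 164 / 243 * 2 := by
  have hh : (164:ℝ) / 243 ≤ h (1 / 3) := by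
    unfold h
    have c : (164:ℝ) / 243 = ∫ y in (0:ℝ)..1, (2 / 3 + 2 / 81 * y ^ 2) := by
      rw [intervalIntegral.integral_add (by simp) (by apply Continuous.intervalIntegrable; fun_prop),
        intervalIntegral.integral_const_mul, integral_pow]
      norm_num
    rw [c]
    apply intervalIntegral.integral_mono_on (by norm_num) (by apply Continuous.intervalIntegrable; fun_prop)
      (integ (by norm_num) (by norm_num))
    intro y hy
    obtain ⟨a1, a2⟩ := den_pos (by norm_num : (0:ℝ) ≤ 1/3) (by norm_num) hy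
    rw [le_div_iff₀ (by linarith)]
    nlinarith [sq_nonneg y, sq_nonneg (y ^ 2)]
  unfold psi
  norm_num
  linarith

lemma h_zero : h 0 = 2 / 3 := by
  unfold h
  norm_num

lemma h_one : h 1 = Real.log 2 := by
  have := g_eq (x := 1) (by norm_num)
  rw [one_pow] at this
  rw [← this]
  unfold g
  norm_num

lemma F_two (a b : ℝ) (ha : a ∈ Set.Icc (-1 : ℝ) 1) (hb : b ∈ Set.Icc (-1 : ℝ) 1) :
    F ![a, b] = 1 / 2 * (1 / (3 - a ^ 2) + 1 / (3 - b ^ 2) + 2 / (3 - a * b))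
      - h (a ^ 2) - h (b ^ 2) := by
  unfold F
  rw [← g_eq ha, ← g_eq hb]
  simp only [Fin.sum_univ_two, Matrix.cons_val_zero, Matrix.cons_val_one]
  rw [mul_comm b a]
  push_cast
  ring

lemma F_lower (a b : ℝ) (ha : a ∈ Set.Icc (-1 : ℝ) 1) (hb : b ∈ Set.Icc (-1 : ℝ) 1) :
    psi ((a ^ 2 + b ^ 2) / 2) + (a ^ 2 - b ^ 2) ^ 2 / 512 ≤ F ![a, b] := by
  rw [F_two a b ha hb]
  obtain ⟨a1, a2⟩ := ha
  obtain ⟨b1, b2⟩ := hb
  have hu : a ^ 2 ≤ 1 := by nlinarith
  have hv : b ^ 2 ≤ 1 := by nlinarith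
  have hm := h_mid (sq_nonneg a) hu (sq_nonneg b) hv
  have c1 : 1 / (3 - (a ^ 2 + b ^ 2) / 2) ≤ 1 / 2 * (1 / (3 - a ^ 2) + 1 / (3 - b ^ 2)) := by
    have h1 : 0 < 3 - a ^ 2 := by linarith
    have h2 : 0 < 3 - b ^ 2 := by linarith
    have h3 : 0 < 3 - (a ^ 2 + b ^ 2) / 2 := by linarith
    rw [div_add_div _ _ h1.ne' h2.ne', mul_div_assoc', div_le_div_iff₀ h3 (mul_pos h1 h2)]
    nlinarith [sq_nonneg (a ^ 2 - b ^ 2)]
  have hab1 : a * b ≤ 1 := by nlinarith [sq_nonneg (a - b)]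
  have hab2 : -1 ≤ a * b := by nlinarith [sq_nonneg (a + b)]
  have c2 : (a ^ 2 - b ^ 2) ^ 2 / 128 ≤ 1 / (3 - a * b) - 1 / (3 + (a ^ 2 + b ^ 2) / 2) := by
    have p1 : 0 < 3 - a * b := by linarith
    have p2 : 0 < 3 + (a ^ 2 + b ^ 2) / 2 := by positivity
    have e : 1 / (3 - a * b) - 1 / (3 + (a ^ 2 + b ^ 2) / 2)
        = ((a + b) ^ 2 / 2) / ((3 - a * b) * (3 + (a ^ 2 + b ^ 2) / 2)) := by
      field_simp
      ring
    rw [e, le_div_iff₀ (mul_pos p1 p2)]
    have hD : (3 - a * b) * (3 + (a ^ 2 + b ^ 2) / 2) ≤ 16 := by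
      have q1 : 3 - a * b ≤ 4 := by linarith
      have q2 : 3 + (a ^ 2 + b ^ 2) / 2 ≤ 4 := by linarith
      nlinarith
    have hq : (a ^ 2 - b ^ 2) ^ 2 ≤ 4 * (a + b) ^ 2 := by
      have e2 : (a ^ 2 - b ^ 2) ^ 2 = (a - b) ^ 2 * (a + b) ^ 2 := by ring
      rw [e2]
      have : (a - b) ^ 2 ≤ 4 := by nlinarith
      nlinarith [sq_nonneg (a + b)]
    nlinarith [sq_nonneg (a ^ 2 - b ^ 2), mul_nonneg (sq_nonneg (a ^ 2 - b ^ 2))
      (by linarith : 0 ≤ 16 - (3 - a * b) * (3 + (a ^ 2 + b ^ 2) / 2))]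
  unfold psi
  have c3 : 1 / 2 * (1 / (3 - a ^ 2) + 1 / (3 - b ^ 2) + 2 / (3 - a * b)) =
      1 / 2 * (1 / (3 - a ^ 2) + 1 / (3 - b ^ 2)) + 1 / (3 - a * b) := by ring
  rw [c3]
  linarith

lemma F_anti (a : ℝ) (ha : a ∈ Set.Icc (-1 : ℝ) 1) : F ![a, -a] = psi (a ^ 2) := by
  rw [F_two a (-a) ha ⟨by linarith [ha.2], by linarith [ha.1]⟩]
  unfold psi
  rw [neg_sq]
  have : 3 - a * -a = 3 + a ^ 2 := by ring
  rw [this]
  ring

/-- `F_2` has exactly two global minimisers in `[-1,1]^2`: the points `(a,-a)` and `(-a,a)` for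
one `a` with `0 < a < 1`. -/
theorem result : ∃ a : ℝ, 0 < a ∧ a < 1 ∧
    ∀ x : Fin 2 → ℝ, IsMinimiser x ↔ (x = ![a, -a] ∨ x = ![-a, a]) := by
  obtain ⟨w, hw, hwmin⟩ := isCompact_Icc.exists_isMinOn (⟨0, by norm_num⟩ : (Set.Icc (0:ℝ) 1).Nonempty)
    psi_cont
  have hmin : ∀ t ∈ Set.Icc (0:ℝ) 1, psi w ≤ psi t := fun t ht => hwmin ht
  have h3 := (hmin (1/3) (by norm_num)).trans psi_third
  have hw0 : w ≠ 0 := by
    rintro rfl
    have : psi 0 = 2 / 3 - 2 * (2 / 3) := by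
      unfold psi; rw [h_zero]; norm_num
    rw [this] at h3
    norm_num at h3
  have hw1 : w ≠ 1 := by
    rintro rfl
    have : psi 1 = 3 / 4 - 2 * Real.log 2 := by
      unfold psi; rw [h_one]; norm_num
    rw [this] at h3
    have := Real.log_two_lt_d9
    linarith
  have hw0' : 0 < w := lt_of_le_of_ne hw.1 (Ne.symm hw0)
  have hw1' : w < 1 := lt_of_le_of_ne hw.2 hw1
  set a := Real.sqrt w with ha
  have ha2 : a ^ 2 = w := Real.sq_sqrt hw.1
  have ha0 : 0 < a := Real.sqrt_pos.mpr hw0'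
  have ha1 : a < 1 := by nlinarith
  have haI : a ∈ Set.Icc (-1:ℝ) 1 := ⟨by linarith, ha1.le⟩
  have hnaI : -a ∈ Set.Icc (-1:ℝ) 1 := ⟨by linarith, by linarith⟩
  have lower : ∀ y : Fin 2 → ℝ, (∀ i, y i ∈ Set.Icc (-1:ℝ) 1) → psi w ≤ F y := by
    intro y hy
    have ey : y = ![y 0, y 1] := by
      ext i; fin_cases i <;> rfl
    have hl := F_lower (y 0) (y 1) (hy 0) (hy 1)
    rw [← ey] at hl
    have h0 := hy 0
    have h1 := hy 1
    have i1 : (y 0) ^ 2 ≤ 1 := by nlinarith [h0.1, h0.2]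
    have i2 : (y 1) ^ 2 ≤ 1 := by nlinarith [h1.1, h1.2]
    have := hmin (((y 0) ^ 2 + (y 1) ^ 2) / 2) ⟨by positivity, by linarith⟩
    have : 0 ≤ ((y 0) ^ 2 - (y 1) ^ 2) ^ 2 / 512 := by positivity
    linarith
  have Fa : F ![a, -a] = psi w := by rw [F_anti a haI, ha2]
  have Fna : F ![-a, a] = psi w := by
    have := F_anti (-a) hnaI
    rw [neg_neg, neg_sq, ha2] at this
    exact this
  refine ⟨a, ha0, ha1, fun x => ⟨fun hx => ?_, fun hx => ?_⟩⟩
  · obtain ⟨hxI, hxmin⟩ := hx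
    have ex : x = ![x 0, x 1] := by
      ext i; fin_cases i <;> rfl
    have hub : F x ≤ psi w := by
      rw [← Fa]
      apply hxmin
      intro i
      fin_cases i
      · exact haI
      · exact hnaI
    have hl := F_lower (x 0) (x 1) (hxI 0) (hxI 1)
    rw [← ex] at hl
    have h0 := hxI 0
    have h1 := hxI 1
    have i1 : (x 0) ^ 2 ≤ 1 := by nlinarith [h0.1, h0.2]
    have i2 : (x 1) ^ 2 ≤ 1 := by nlinarith [h1.1, h1.2]
    have hmI : ((x 0) ^ 2 + (x 1) ^ 2) / 2 ∈ Set.Icc (0:ℝ) 1 := ⟨by positivity, by linarith⟩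
    have hm := hmin _ hmI
    have hsq : ((x 0) ^ 2 - (x 1) ^ 2) ^ 2 = 0 := by
      have : 0 ≤ ((x 0) ^ 2 - (x 1) ^ 2) ^ 2 := sq_nonneg _
      linarith
    have heq : (x 0) ^ 2 = (x 1) ^ 2 := by
      have := pow_eq_zero_iff (two_ne_zero) |>.mp hsq
      linarith
    have hpsi : psi (((x 0) ^ 2 + (x 1) ^ 2) / 2) = psi w := by
      rw [hsq] at hl
      linarith
    have hww : ((x 0) ^ 2 + (x 1) ^ 2) / 2 = w := by
      by_contra hne
      have hstr := psi_mid hmI.1 hmI.2 hw.1 hw.2 hne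
      have hmid := hmin ((((x 0) ^ 2 + (x 1) ^ 2) / 2 + w) / 2) ⟨by linarith [hmI.1, hw.1], by linarith [hmI.2, hw.2]⟩
      rw [hpsi] at hstr
      linarith
    have e0 : (x 0) ^ 2 = w := by linarith
    have e1 : (x 1) ^ 2 = w := by linarith
    have hopp : x 1 = - x 0 := by
      rcases sq_eq_sq_iff_eq_or_eq_neg.mp (e1.trans e0.symm) with hs | hs
      · exfalso
        have hF := F_two (x 0) (x 1) h0 h1
        rw [← ex, hs, ← pow_two, e0] at hF
        have hgt : psi w < F x := by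
          rw [hF]
          unfold psi
          have : 1 / (3 + w) < 1 / (3 - w) := by
            apply one_div_lt_one_div_of_lt <;> linarith
          have e : 1 / 2 * (1 / (3 - w) + 1 / (3 - w) + 2 / (3 - w)) = 1 / (3 - w) + 1 / (3 - w) := by
            ring
          rw [e]
          linarith
        linarith
      · exact hs
    have hx0 : x 0 = a ∨ x 0 = -a := by
      apply sq_eq_sq_iff_eq_or_eq_neg.mp
      rw [e0, ha2]
    rcases hx0 with h | h
    · left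
      rw [ex, hopp, h]
    · right
      rw [ex, hopp, h, neg_neg]
  · rcases hx with rfl | rfl
    · refine ⟨?_, fun y hy => ?_⟩
      · intro i
        fin_cases i
        · exact haI
        · exact hnaI
      · rw [Fa]; exact lower y hy
    · refine ⟨?_, fun y hy => ?_⟩
      · intro i
        fin_cases i
        · exact hnaI
        · exact haI
      · rw [Fna]; exact lower y hy

end Pool.Agent.Results.MP_76a7f5_an.TwoNodes
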